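import Pool.Agent.U866.OM.Stm

/-! Project OM (helper866), package AVG: averaging of derivatives of bounded functions. -/

set_option autoImplicit false

namespace Pool.Agent.U97.OM

open Pool.Agent.H498R3.GB Pool.Agent.U866.OM
open scoped ContDiff Topology
open MeasureTheory Filter

theorem t_AVG : S_AVG := by
  intro m w hw hwc i P hP hBd
  obtain ⟨B, hB⟩ := hBd
  obtain ⟨v, hv⟩ : ∃ v : E m, v = EuclideanSpace.single i 1 := ⟨_, rfl⟩
  have hwd : Differentiable ℝ w := hw.differentiable (by simp)
  have hPd : Differentiable ℝ P := hP.differentiable (by simp)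
  have hw1 : Continuous fun y => fderiv ℝ w y v :=
    (hw.continuous_fderiv (by simp)).clm_apply continuous_const
  have hP1 : Continuous fun y => fderiv ℝ P y v :=
    (hP.continuous_fderiv (by simp)).clm_apply continuous_const
  have hwc1 : HasCompactSupport fun y => fderiv ℝ w y v := hwc.fderiv_apply ℝ v
  have hw1i : Integrable fun y => fderiv ℝ w y v := hw1.integrable_of_hasCompactSupport hwc1
  have hB0 : 0 ≤ B := (abs_nonneg _).trans (hB 0)
  have key : ∀ η : ℝ, 0 < η →
      ‖∫ y, w y * pd i P (η⁻¹ • y)‖ ≤ η * (B * ∫ y, |fderiv ℝ w y v|) := by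
    intro η hη
    have hη' : η ≠ 0 := hη.ne'
    have hF : ∀ y : E m, HasFDerivAt (fun y : E m => P (η⁻¹ • y))
        ((fderiv ℝ P (η⁻¹ • y)).comp (η⁻¹ • ContinuousLinearMap.id ℝ (E m))) y := by
      intro y
      have h1 : HasFDerivAt (fun y : E m => η⁻¹ • y) (η⁻¹ • ContinuousLinearMap.id ℝ (E m)) y :=
        (hasFDerivAt_id y).const_smul η⁻¹
      exact ((hPd (η⁻¹ • y)).hasFDerivAt).comp y h1
    have hFd : ∀ y : E m, fderiv ℝ (fun y : E m => P (η⁻¹ • y)) y v =
        η⁻¹ * fderiv ℝ P (η⁻¹ • y) v := by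
      intro y
      rw [(hF y).fderiv]
      simp
    have hFc : Continuous fun y : E m => P (η⁻¹ • y) :=
      hP.continuous.comp (continuous_const_smul _)
    have hsc : Continuous fun y : E m => η⁻¹ • y := continuous_const_smul _
    have h2 : ∫ y, w y * fderiv ℝ (fun y : E m => P (η⁻¹ • y)) y v =
        - ∫ y, fderiv ℝ w y v * P (η⁻¹ • y) := by
      apply integral_mul_fderiv_eq_neg_fderiv_mul_of_integrable
      · exact (hw1.mul hFc).integrable_of_hasCompactSupport hwc1.mul_right
      · simp only [hFd]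
        exact (hw.continuous.mul
          (continuous_const.mul (hP1.comp hsc))).integrable_of_hasCompactSupport hwc.mul_right
      · exact (hw.continuous.mul hFc).integrable_of_hasCompactSupport hwc.mul_right
      · exact fun y _ => hwd y
      · exact fun y _ => (hF y).differentiableAt
    have h3 : ∫ y, w y * pd i P (η⁻¹ • y) = η * ∫ y, w y * fderiv ℝ (fun y : E m => P (η⁻¹ • y)) y v := by
      rw [← integral_const_mul]
      congr 1
      funext y
      rw [hFd]
      unfold pd
      rw [← hv]
      field_simp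
    rw [h3, h2, norm_mul, norm_neg, Real.norm_eq_abs, abs_of_pos hη]
    refine mul_le_mul_of_nonneg_left ?_ hη.le
    rw [← integral_const_mul]
    refine norm_integral_le_of_norm_le (hw1i.abs.const_mul B) (Eventually.of_forall fun y => ?_)
    rw [norm_mul, Real.norm_eq_abs, Real.norm_eq_abs, mul_comm]
    exact mul_le_mul_of_nonneg_right (hB _) (abs_nonneg _)
  have hlim : Tendsto (fun η : ℝ => η * (B * ∫ y, |fderiv ℝ w y v|)) (𝓝[>] 0) (𝓝 0) := by
    have h1 : Tendsto (fun η : ℝ => η * (B * ∫ y, |fderiv ℝ w y v|)) (𝓝 0)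
        (𝓝 (0 * (B * ∫ y, |fderiv ℝ w y v|))) := tendsto_id.mul_const _
    rw [zero_mul] at h1
    exact h1.mono_left nhdsWithin_le_nhds
  refine squeeze_zero_norm' ?_ hlim
  filter_upwards [self_mem_nhdsWithin] with η hη
  exact key η hη

end Pool.Agent.U97.OM
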